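import Pool.Agent.V11290.FD.Lev

/-!
# Level of distribution `1 - ε` for the residues near `t α + s`, for almost every `α` of a set of positive Fourier dimension

Let `ν` be ANY probability measure on `[-B, B]` whose Fourier transform decays like some power, with an arbitrarily
small exponent `σ > 0`. (Such measures live on many sets of Lebesgue measure zero and of arbitrarily small dimension,
for example on the sets of `τ`-well approximable numbers (Kaufman), on random Salem sets and on limit sets of convex cocompact
Fuchsian groups (Bourgain, Dyatlov).) For `ν`-almost every `α` and all but finitely many `j`, for ALL the residues `a > 0` at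
a distance of at most `log ^ A (t j)` from `t j α + s j` the primes up to `B t j` have the level of distribution `1 - ε` in the
class of `a`, with respect to at most `log ^ T (t j)` given systems of arbitrary coefficients.

Proof: the law of a random rounding of `t α` has a small characteristic function away from the integers (a Fourier
series with the coefficients `sinc²`), the theorem of the library TH872.Mir on random residues with a small
characteristic function (starting files) is applied to it, and then the lemma of Borel and Cantelli.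

From Mathlib: `ArithmeticFunction.vonMangoldt`: the function `Λ`; `Nat.totient`: Euler's function.
-/

set_option autoImplicit false

namespace Pool.Agent.Results.MP_00e23e_nt.FourierDecay

open MeasureTheory Finset

/-- `ψ(x; q, a)`: the sum of `Λ(n)` over the `n ≤ x` with `n ≡ a (mod q)`. -/
noncomputable def psi (x q a : ℕ) : ℝ :=
  ∑ n ∈ (Icc 1 x).filter (fun n => n ≡ a [MOD q]), ArithmeticFunction.vonMangoldt n

/-- The sum of `λ(q) (ψ(x; q, a) - x / φ(q))` over the `q ≤ Q` coprime to `a`. -/
noncomputable def weighted (lam : ℕ → ℝ) (Q x a : ℕ) : ℝ :=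
  ∑ q ∈ (Icc 1 Q).filter (fun q => a.Coprime q), lam q * (psi x q a - (x : ℝ) / Nat.totient q)

/-- Let `ν` be a probability measure on `[-B, B]` with `|ν^(ξ)| ≤ C |ξ| ^ (-σ)` for `|ξ| ≥ 1` and some `C` and `σ > 0`.
Let `t j ≥ 2` and `|s j| ≤ B t j` be real numbers, where `j` ranges over a set `J`, such that the sum of the
`1 / log ^ V (t j)` converges for some `V`. Let `ε > 0`, and for every `j` let at most `log ^ T (t j)` systems of real
coefficients `λ(q)` with `|λ(q)| ≤ log ^ T (t j)` be given. Then for `ν`-almost every `α`, for all `A` and `U` and for all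
but finitely many `j`, ALL the integers `a > 0` with `|a - (t j α + s j)| ≤ log ^ A (t j)` have the following property: for
all these systems and for all `x ≤ B t j`, the sum of `λ(q) (ψ(x; q, a) - x / φ(q))` over the `q ≤ (t j) ^ (1 - ε)` coprime
to `a` has absolute value at most `t j / log ^ U (t j)`. -/
theorem result (ν : Measure ℝ) [IsProbabilityMeasure ν] (B : ℝ) (hB : 0 < B) (hν : ∀ᵐ α ∂ν, |α| ≤ B)
    (C σ : ℝ) (hσ : 0 < σ) (hdec : ∀ ξ : ℝ, 1 ≤ |ξ| → ‖charFun ν ξ‖ ≤ C * |ξ| ^ (-σ))
    (J : Type) (t s : J → ℝ) (ht : ∀ j, 2 ≤ t j) (hs : ∀ j, |s j| ≤ B * t j)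
    (hsum : ∃ V : ℕ, Summable fun j => 1 / Real.log (t j) ^ V) (ε : ℝ) (hε : 0 < ε)
    (T : ℕ) (L : J → ℕ) (hL : ∀ j, (L j : ℝ) ≤ Real.log (t j) ^ T)
    (lam : (j : J) → Fin (L j) → ℕ → ℝ) (hlam : ∀ j l q, |lam j l q| ≤ Real.log (t j) ^ T) :
    ∀ᵐ α ∂ν, ∀ A U : ℕ,
      {j | ¬ ∀ a : ℕ, 0 < a → |(a : ℝ) - (t j * α + s j)| ≤ Real.log (t j) ^ A → ∀ l, ∀ x : ℕ, (x : ℝ) ≤ B * t j →
        |weighted (lam j l) ⌊t j ^ (1 - ε)⌋₊ x a| ≤ t j / Real.log (t j) ^ U}.Finite := by
  obtain ⟨V, hV⟩ := hsum
  have h := Pool.Agent.V11290.FD.lev_ae B C σ hB hσ ε hε ν hdec hν t s ht V hV hs T L hL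
    (fun j l => if hl : l < L j then lam j ⟨l, hl⟩ else fun _ => 0) (by
    intro j l hl q
    simp only [hl, dif_pos]
    exact hlam j _ q)
  filter_upwards [h] with α hα A U
  refine (hα A U).subset ?_
  intro j hj hall
  apply hj
  intro a ha hm l x hx
  have h1 := hall a ha hm l l.2 x hx
  simp only [l.2, dif_pos] at h1
  exact h1

end Pool.Agent.Results.MP_00e23e_nt.FourierDecay
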