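import Pool.Agent.V11290.TD.T9

/-!
# The divisor problem of Titchmarsh, for the divisor functions of all orders and arbitrary functions with the Siegel-Walfisz
# property, for residues near the typical dilates `t α + s`, `α` in sets of arbitrarily small Fourier dimension

If the exponent `1 - 1/k` were (nearly) admissible, the sum of `τ_k(p - l)` over the primes `p ≤ x` would have the expected
asymptotic formula for every fixed `l`; this is unknown for `k ≥ 3`. Here it is proved for ALL `k`, for ALL integers `a` near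
`t j α + s j` in the place of `l`, for all lengths `X ≤ B t j` at once, and with arbitrary nonnegative functions with the
Siegel-Walfisz property (for instance arbitrary sets of primes with this property) in the place of the primes, for `μ`-almost
every `α` and all but finitely many `j`, where `μ` is ANY compactly supported probability measure on the line whose Fourier
transform decays like some power, with an arbitrarily small exponent.
-/

set_option autoImplicit false

namespace Pool.Agent.Results.MP_00e23e_nt.FourierDecayDivisors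

open Finset MeasureTheory

/-- `τ_k(n)`, the number of ordered factorisations of `n ≥ 1` into `k` positive factors: the `k`-th power of `1` for the
Dirichlet convolution -/
def tau (k n : ℕ) : ℕ := ((ArithmeticFunction.zeta : ArithmeticFunction ℕ) ^ k) n

/-- the local factor of the constant -/
noncomputable def factor (k : ℕ) (a : ℤ) (p : ℕ) : ℝ :=
  if (p : ℤ) ∣ a then (1 - 1 / (p : ℝ)) ^ (k - 1) else 1 + (1 - (1 - 1 / (p : ℝ)) ^ (k - 1)) / ((p : ℝ) - 1)

/-- the constant `𝔖_k(a)`, the product of the local factors -/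
noncomputable def constant (k : ℕ) (a : ℤ) : ℝ := ∏' p : Nat.Primes, factor k a p

/-- the sum of `d ^ (-1/2)` over the divisors `d` of `a`; it is bounded on average over `a` -/
noncomputable def weight (a : ℤ) : ℝ := ∑ d ∈ a.natAbs.divisors, (d : ℝ) ^ (-(1 / 2) : ℝ)

/-- the sum of `g n τ_k(|n - a|)` over `n ≤ X`, `n ≠ a` -/
noncomputable def S (k X : ℕ) (g : ℕ → ℝ) (a : ℤ) : ℝ :=
  ∑ n ∈ Icc 1 X, if (n : ℤ) = a then 0 else g n * tau k ((n : ℤ) - a).natAbs

/-- the sum of `g n` over `n ≤ X` -/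
noncomputable def total (g : ℕ → ℝ) (X : ℕ) : ℝ := ∑ n ∈ Icc 1 X, g n

/-- the Siegel-Walfisz property of `g` on `n ≤ X`: for all moduli `r ≤ R` and all classes `c`, the sum of `g n` over `n ≤ X`,
`n ≡ c mod r`, is `total g X / φ(r)` for `c` prime to `r` and `0` otherwise, with an error at most `δ` -/
def SiegelWalfisz (g : ℕ → ℝ) (X R : ℕ) (δ : ℝ) : Prop := ∀ r : ℕ, 1 ≤ r → r ≤ R → ∀ c : ℤ,
  |(∑ n ∈ Icc 1 X, if (r : ℤ) ∣ (n : ℤ) - c then g n else 0) - (if r.Coprime c.natAbs then total g X / Nat.totient r else 0)| ≤ δ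

/-- **The divisor problem of Titchmarsh of all orders for residues near typical dilates.** Let `k ≥ 2`, let `μ` be a
probability measure on `[-B, B]` with `|μ^(ξ)| ≤ C |ξ| ^ (-σ)` for `|ξ| ≥ 1`, `σ > 0`, and let `t j ≥ 2`, `|s j| ≤ B t j` be
real numbers such that the sum of the `1 / log ^ V (t j)` converges for some `V`. Write `N = ⌈t j⌉`.

(0) The product defining `𝔖_k(a)` converges for `a ≠ 0`.

(1) For `μ`-almost every `α`, all `A` and `ε > 0` and all but finitely many `j`: ALL integers `a ≠ 0` with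
`|a - (t j α + s j)| ≤ log ^ A (t j)` and ALL `X ≤ B t j` satisfy
`|∑_{n ≤ X, n ≠ a} Λ(n) τ_k(|n - a|) - 𝔖_k(a) X log ^ (k - 1) N / (k - 1)!| ≤ ε w(a) N log ^ (k - 1) N`, `w(a)` the sum of
`d ^ (-1/2)` over the divisors of `a`.

(2) Let for every `j` at most `log ^ T (t j)` functions `g` with `0 ≤ g n ≤ log ^ T (t j)` on `n ≤ X`, `X ≤ B t j`, and with
sum at most `B t j` be given. For `μ`-almost every `α`, all `A` and `ε > 0` there are `E` and `V` such that for all but
finitely many `j`, ALL integers `a ≠ 0` with `|a - (t j α + s j)| ≤ log ^ A (t j)` satisfy the estimate in (1) with `Λ(n)`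
replaced by `g n` and the factor `X` of the main term replaced by the sum of the `g n`, for all given `g` with the
Siegel-Walfisz property for the moduli up to `log ^ E N`, with error `N / log ^ V N`. -/
theorem result (k : ℕ) (hk : 2 ≤ k) (μ : Measure ℝ) [IsProbabilityMeasure μ] (B : ℝ) (hμ : ∀ᵐ α ∂μ, |α| ≤ B)
    (C σ : ℝ) (hσ : 0 < σ) (hdec : ∀ ξ : ℝ, 1 ≤ |ξ| → ‖charFun μ ξ‖ ≤ C * |ξ| ^ (-σ))
    (J : Type) (t s : J → ℝ) (ht : ∀ j, 2 ≤ t j) (hs : ∀ j, |s j| ≤ B * t j)
    (hsum : ∃ V : ℕ, Summable fun j => 1 / Real.log (t j) ^ V) :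
    (∀ a : ℤ, a ≠ 0 → Multipliable fun p : Nat.Primes => factor k a p) ∧
    (∀ᵐ α ∂μ, ∀ (A : ℕ) (ε : ℝ), 0 < ε →
      {j | ¬ ∀ a : ℤ, a ≠ 0 → |(a : ℝ) - (t j * α + s j)| ≤ Real.log (t j) ^ A → ∀ X : ℕ, (X : ℝ) ≤ B * t j →
        |S k X (fun n => ArithmeticFunction.vonMangoldt n) a -
            constant k a * (X * (Real.log ⌈t j⌉₊ ^ (k - 1) / ((k - 1).factorial : ℕ)))| ≤
          ε * (weight a * ⌈t j⌉₊ * Real.log ⌈t j⌉₊ ^ (k - 1))}.Finite) ∧
    ∀ (T : ℕ) (L : J → ℕ) (X : (j : J) → Fin (L j) → ℕ) (g : (j : J) → Fin (L j) → ℕ → ℝ),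
      (∀ j, (L j : ℝ) ≤ Real.log (t j) ^ T) → (∀ j l, (X j l : ℝ) ≤ B * t j) →
      (∀ j l, ∀ n ∈ Icc 1 (X j l), 0 ≤ g j l n ∧ g j l n ≤ Real.log (t j) ^ T) →
      (∀ j l, total (g j l) (X j l) ≤ B * t j) →
      ∀ᵐ α ∂μ, ∀ (A : ℕ) (ε : ℝ), 0 < ε → ∃ E V : ℕ,
        {j | ¬ ∀ a : ℤ, a ≠ 0 → |(a : ℝ) - (t j * α + s j)| ≤ Real.log (t j) ^ A → ∀ l,
          SiegelWalfisz (g j l) (X j l) ⌈Real.log ⌈t j⌉₊ ^ E⌉₊ (⌈t j⌉₊ / Real.log ⌈t j⌉₊ ^ V) →
          |S k (X j l) (g j l) a -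
              constant k a * (total (g j l) (X j l) * (Real.log ⌈t j⌉₊ ^ (k - 1) / ((k - 1).factorial : ℕ)))| ≤
            ε * (weight a * ⌈t j⌉₊ * Real.log ⌈t j⌉₊ ^ (k - 1))}.Finite := by
  obtain ⟨κ, rfl⟩ : ∃ κ, k = κ + 2 := ⟨k - 2, by omega⟩
  have hfac : ∀ a : ℤ, ∀ p : ℕ, factor (κ + 2) a p = Pool.Agent.V11290.TD.fac (κ + 2) a.natAbs p := by
    intro a p
    unfold factor Pool.Agent.V11290.TD.fac
    simp only [Int.natCast_dvd]
  have hprod : ∀ a : ℤ, a ≠ 0 → HasProd (fun p : Nat.Primes => factor (κ + 2) a p) (Pool.Agent.V11290.TD.Tc (κ + 1) a.natAbs) := by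
    intro a ha
    have h := Pool.Agent.V11290.TD.Tc_prod κ a.natAbs (Int.natAbs_pos.2 ha)
    have e : (fun p : Nat.Primes => factor (κ + 2) a p) = fun p : Nat.Primes => Pool.Agent.V11290.TD.fac (κ + 2) a.natAbs p := by
      funext p
      exact hfac a p
    rw [e]
    exact h
  have hconst : ∀ a : ℤ, a ≠ 0 → constant (κ + 2) a = Pool.Agent.V11290.TD.Tc (κ + 1) a.natAbs := by
    intro a ha
    exact (hprod a ha).tprod_eq
  have hS : ∀ (X : ℕ) (g : ℕ → ℝ) (a : ℤ), S (κ + 2) X g a = Pool.Agent.V11290.TD.St (κ + 2) X g a := by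
    intro X g a
    unfold S Pool.Agent.V11290.TD.St
    apply sum_congr rfl
    intro n _
    split_ifs
    · rw [mul_zero]
    · rfl
  have hw : ∀ a : ℤ, weight a = Pool.Agent.TH212.DV.sg a.natAbs := fun a => rfl
  have hG : ∀ j, B * t j ≤ (((⌈|B|⌉₊ + 1) * ⌈t j⌉₊ : ℕ) : ℝ) := by
    intro j
    have h1 : |B| ≤ (⌈|B|⌉₊ : ℝ) := Nat.le_ceil _
    have h2 : t j ≤ (⌈t j⌉₊ : ℝ) := Nat.le_ceil _
    have h3 : 0 ≤ t j := by linarith [ht j]
    have h4 := le_abs_self B
    have h5 := abs_nonneg B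
    push_cast
    calc B * t j ≤ |B| * t j := mul_le_mul_of_nonneg_right h4 h3
      _ ≤ ((⌈|B|⌉₊ : ℝ) + 1) * ⌈t j⌉₊ := mul_le_mul (by linarith) h2 h3 (by positivity)
  refine ⟨fun a ha => (hprod a ha).multipliable, ?_, ?_⟩
  · filter_upwards [Pool.Agent.V11290.TD.lam_ae μ B hμ C σ hσ hdec J t s ht hs hsum (⌈|B|⌉₊ + 1) κ (by omega)] with α hα A ε hε
    refine (hα A ε hε).subset ?_
    intro j hj
    rw [Set.mem_ofPred_eq] at hj ⊢
    intro hall
    apply hj
    intro a ha0 ha X hX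
    have hX' : X ≤ (⌈|B|⌉₊ + 1) * ⌈t j⌉₊ := by exact_mod_cast hX.trans (hG j)
    have h := hall a ha0 ha X hX'
    rw [hS, hconst a ha0, hw]
    exact h
  · intro T L X g hL hX hg hg2
    filter_upwards [Pool.Agent.V11290.TD.tm_ae μ B hμ C σ hσ hdec J t s ht hs hsum (⌈|B|⌉₊ + 1) T κ 0 L (fun j _ => hL j) X
      (fun j _ l => by exact_mod_cast (hX j l).trans (hG j)) g (fun j _ l => hg j l)
      (fun j _ l => by
        have h := (hg2 j l).trans (hG j)
        push_cast at h ⊢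
        exact h)] with α hα A ε hε
    obtain ⟨i, hi⟩ := exists_nat_one_div_lt hε
    obtain ⟨E, V, hEV⟩ := hα A i
    refine ⟨E, V, hEV.subset ?_⟩
    intro j hj
    rw [Set.mem_ofPred_eq] at hj ⊢
    intro hall
    apply hj
    intro a ha0 ha l hSW
    have h := hall a ha0 ha l hSW
    rw [hS, hconst a ha0, hw]
    refine h.trans (mul_le_mul_of_nonneg_right hi.le ?_)
    have := Pool.Agent.TH212.DV.sg_nonneg a.natAbs
    have h2 : 0 ≤ Real.log (⌈t j⌉₊ : ℝ) := Real.log_natCast_nonneg _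
    positivity

end Pool.Agent.Results.MP_00e23e_nt.FourierDecayDivisors
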