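import Pool.Agent.V11265.LN1

/-!
# Level of distribution beyond one half for all the residues near powers

Let `ν n / log n → ∞`, for example `ν n = n` or `ν n = n !`, and `α < 14 / 27`. For all real `z > 1` outside a set of
Hausdorff dimension zero and all `θ < 1` the integers `a` with `|a - β z ^ (ν n)| ≤ z ^ (θ ν n)` for some `n` are
good residues at the level `α`:

* for each of them, except finitely many, the level of distribution is `α` with the residue `a` in the whole range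
  `a ≤ N ≤ exp (a ^ δ)`, with a saving of an arbitrary power of `log N` and the maximum over `y ≤ N`;
* for any set `A` of at most `(log N) ^ T` of them, with `(log N) ^ K ≤ a ≤ N`, the maximum over the residues
  `a ∈ A` can be taken inside the sum over `d`, as in the problem.
-/

set_option autoImplicit false

open Finset Filter

namespace Pool.Agent.Results.MP_00e23e_nt.LevelNearPowers

/-- `π(y; d, a)`: the number of primes `p ≤ y` with `p ≡ a (mod d)` -/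
noncomputable def primesAP (y : ℝ) (d a : ℕ) : ℕ :=
  ((Icc 1 ⌊y⌋₊).filter (fun p => p.Prime ∧ p ≡ a [MOD d])).card

/-- `li(y) = ∫_2^y dt / log t` -/
noncomputable def li (y : ℝ) : ℝ := ∫ t in (2 : ℝ)..y, 1 / Real.log t

/-- the maximum over real `y`, `2 ≤ y ≤ N`, of `|E(y; d, a)| = |π(y; d, a) - li(y) / φ(d)|` -/
noncomputable def EMax (N d a : ℕ) : ℝ :=
  ⨆ y : Set.Icc (2 : ℝ) N, |(primesAP y d a : ℝ) - li y / (Nat.totient d : ℝ)|

/-- the sum over the `d ≤ N ^ α` coprime to `a` -/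
noncomputable def levelSum (α : ℝ) (N a : ℕ) : ℝ :=
  ∑ d ∈ (Icc 1 ⌊(N : ℝ) ^ α⌋₊).filter (fun d => Nat.Coprime a d), EMax N d a

/-- the sum over the `d ≤ N ^ α` of the maximum over the residues `a ∈ A` coprime to `d` -/
noncomputable def maxInside (α : ℝ) (N : ℕ) (A : Finset ℕ) : ℝ :=
  ∑ d ∈ Icc 1 ⌊(N : ℝ) ^ α⌋₊, ⨆ a : {a : ℕ // a ∈ A ∧ Nat.Coprime a d}, EMax N d a

/-- the integer `a` is in the window of length `2 z ^ (θ ν n)` around `β z ^ (ν n)`, for some `n` -/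
def Near (ν : ℕ → ℝ) (θ β z : ℝ) (a : ℕ) : Prop := ∃ n : ℕ, |(a : ℝ) - β * z ^ ν n| ≤ z ^ (θ * ν n)

/-- **Level of distribution `14/27` for all residues near powers.** Let `ν n / log n → ∞` and let `B` be a countable
set of real numbers. For all `z > 1` outside a set of Hausdorff dimension zero, all `θ < 1` and `α < 14/27`:
(1) for every `U` there is `δ > 0` such that for every positive `β` in `B` all large integers `a` with
`|a - β z ^ (ν n)| ≤ z ^ (θ ν n)` for some `n` and all `N` with `a ≤ N ≤ exp (a ^ δ)` satisfy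
`∑_{d ≤ N ^ α, (a, d) = 1} max_{y ≤ N} |E(y; d, a)| ≤ N / (log N) ^ U`;
(2) for all `T`, `U` there is `K` such that for every positive `β` in `B`, all large `N` and all sets `A` of at most
`(log N) ^ T` such integers `a`, with `(log N) ^ K ≤ a ≤ N`:
`∑_{d ≤ N ^ α} max_{a ∈ A, (a, d) = 1} max_{y ≤ N} |E(y; d, a)| ≤ N / (log N) ^ U`. -/
theorem result (ν : ℕ → ℝ) (hν : Tendsto (fun n : ℕ => ν n / Real.log n) atTop atTop) (B : Set ℝ)
    (hB : B.Countable) :
    ∃ E : Set ℝ, dimH E = 0 ∧ ∀ z : ℝ, 1 < z → z ∉ E → ∀ θ : ℝ, θ < 1 → ∀ α : ℝ, α < 14 / 27 →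
      (∀ U : ℕ, ∃ δ : ℝ, 0 < δ ∧ ∀ β ∈ B, 0 < β → ∃ a₀ : ℕ, ∀ a : ℕ, a₀ ≤ a → Near ν θ β z a →
        ∀ N : ℕ, a ≤ N → (N : ℝ) ≤ Real.exp ((a : ℝ) ^ δ) → levelSum α N a ≤ N / Real.log N ^ U) ∧
      ∀ T U : ℕ, ∃ K : ℝ, 0 < K ∧ ∀ β ∈ B, 0 < β → ∃ N₀ : ℕ, ∀ N : ℕ, N₀ ≤ N → ∀ A : Finset ℕ,
        (∀ a ∈ A, Real.log N ^ K ≤ a ∧ a ≤ N ∧ Near ν θ β z a) → (A.card : ℝ) ≤ Real.log N ^ T →
          maxInside α N A ≤ N / Real.log N ^ U := by
  obtain ⟨E, hE0, hE⟩ := Pool.Agent.V11265.LN.inside (ν := ν) hν B hB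
  refine ⟨E, hE0, fun z hz hzE θ hθ α hα => ?_⟩
  obtain ⟨h1, h2⟩ := hE z hz hzE θ hθ 1 le_rfl α hα
  refine ⟨fun U => ?_, fun T U => ?_⟩
  · obtain ⟨δ, hδ, h⟩ := h1 U
    refine ⟨δ, hδ, fun β hβ hβ0 => ?_⟩
    obtain ⟨a₀, ha₀⟩ := h β hβ hβ0
    refine ⟨a₀, fun a ha hn N haN hN => le_trans (le_of_eq ?_) (ha₀ a ha hn N haN hN)⟩
    unfold levelSum Pool.Agent.V11265.LN.Sum
    simp only [one_pow, one_mul]
    rfl
  · obtain ⟨K, hK, h⟩ := h2 T U
    refine ⟨K, hK, fun β hβ hβ0 => ?_⟩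
    obtain ⟨N₀, hN₀⟩ := h β hβ hβ0
    refine ⟨N₀, fun N hN A hA hcard => le_trans (le_of_eq ?_) (hN₀ N hN A hA hcard)⟩
    unfold maxInside
    simp only [one_pow, one_mul]
    rfl

end Pool.Agent.Results.MP_00e23e_nt.LevelNearPowers
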