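import Pool.Agent.V11290.TI.A7
import Pool.Agent.TH823.Fam.Fam2

/-!
# Level of distribution `N / log ^ K N` for arbitrary sets of primes (and arbitrary functions with a Siegel-Walfisz
condition), for almost all residues from arbitrary thin families

The sum over the divisors `q ≤ D` of `n - a` minus its model (the contribution of the Farey fractions with small
denominators) has a small exponential sum (`Pool.Agent.TH212.DV`, starting files); so its correlation with an ARBITRARY
function is small for most members `a` of a family of nearly minimal additive energy. The model is compared with `1 / φ(q)`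
by the Siegel-Walfisz condition, for those `a` which do not have too many divisors; the energy shows that there are few others.
The moments of Weyl sums, which show that polynomial values are such a family, are from `Pool.Agent.TH823.Fam`.
-/

set_option autoImplicit false

namespace Pool.Agent.Results.MP_00e23e_nt.ThinFamiliesSets

open Finset

/-- The additive energy of order `p` of the family `s 1, ..., s x`: the number of the solutions of
`s (v 1) + ... + s (v p) = s (w 1) + ... + s (w p)` with all `v i`, `w i` in `{1, ..., x}`. -/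
def energy (p x : ℕ) (s : ℕ → ℤ) : ℕ :=
  (((Fintype.piFinset fun _ : Fin p => Icc 1 x) ×ˢ (Fintype.piFinset fun _ : Fin p => Icc 1 x)).filter
    (fun q => ∑ i, s (q.1 i) = ∑ i, s (q.2 i))).card

open Classical in
/-- The number of the `m` in `{1, ..., x}` with the property `E`. -/
noncomputable def num (x : ℕ) (E : ℕ → Prop) : ℝ := (((Icc 1 x).filter E).card : ℝ)

/-- `S(g; X)`: the sum of `g(n)` over the `n` with `1 ≤ n ≤ X`. -/
noncomputable def total (g : ℕ → ℝ) (X : ℕ) : ℝ := ∑ n ∈ Icc 1 X, g n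

/-- `S(g; X, q, a)`: the sum of `g(n)` over the `n` with `1 ≤ n ≤ X` and `n ≡ a (mod q)`. -/
noncomputable def prog (g : ℕ → ℝ) (X q : ℕ) (a : ℤ) : ℝ :=
  ∑ n ∈ (Icc 1 X).filter (fun n : ℕ => (n : ℤ) ≡ a [ZMOD q]), g n

/-- The expected value of `S(g; X, q, a)`: it is `S(g; X) / φ(q)` if `a` is coprime to `q`, and `0` otherwise. -/
noncomputable def expected (g : ℕ → ℝ) (X q : ℕ) (a : ℤ) : ℝ :=
  if Int.gcd a q = 1 then total g X / Nat.totient q else 0

/-- The Siegel-Walfisz condition: `S(g; X, r, c)` differs from its expected value by at most `δ`, for all moduli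
`1 ≤ r ≤ z` and all residues `c`. -/
def SiegelWalfisz (g : ℕ → ℝ) (X : ℕ) (z δ : ℝ) : Prop :=
  ∀ r : ℕ, 1 ≤ r → (r : ℝ) ≤ z → ∀ c : ℤ, |prog g X r c - expected g X r c| ≤ δ

/-- The sum of `λ(q) (S(g; X, q, a) - expected value)` over all `1 ≤ q ≤ D`. -/
noncomputable def weighted (lam g : ℕ → ℝ) (D X : ℕ) (a : ℤ) : ℝ :=
  ∑ q ∈ Icc 1 D, lam q * (prog g X q a - expected g X q a)

/-- The level `N / log ^ K N`, rounded down. -/
noncomputable def level (K N : ℕ) : ℕ := ⌊N / Real.log N ^ K⌋₊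

/-- The function `Λ` of von Mangoldt, with real values. -/
noncomputable def Lam (n : ℕ) : ℝ := ArithmeticFunction.vonMangoldt n

/-- The level of distribution `N / log ^ K N` for almost all members of the family `s 1, ..., s x`: for arbitrary systems of
at most `log ^ T N` triples of a length `X ≤ B N`, a function `g` and coefficients `λ(q)`, both bounded by `log ^ T N`, such
that all the functions `g` satisfy the Siegel-Walfisz condition with the error `N / log ^ V N` modulo the moduli up to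
`log ^ E N`: for all `m ≤ x` with at most `x / log ^ U N` exceptions, either `s m = 0` or the sum of
`λ(q) (S(g; X, q, s m) - expected value)` over the `q ≤ N / log ^ K N` has absolute value at most `N / log ^ U N`, for all
triples. The same holds for `g = Λ`. -/
def HasLevel (K E V B T U N x : ℕ) (s : ℕ → ℤ) : Prop :=
  ∀ L : ℕ, (L : ℝ) ≤ Real.log N ^ T → ∀ X : Fin L → ℕ, (∀ l, X l ≤ B * N) →
    ∀ lam : Fin L → ℕ → ℝ, (∀ l q, |lam l q| ≤ Real.log N ^ T) →
    (∀ g : Fin L → ℕ → ℝ, (∀ l, ∀ n ≤ X l, |g l n| ≤ Real.log N ^ T) →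
      (∀ l, SiegelWalfisz (g l) (X l) (Real.log N ^ E) (N / Real.log N ^ V)) →
      num x (fun m => s m ≠ 0 ∧ ¬ ∀ l, |weighted (lam l) (g l) (level K N) (X l) (s m)| ≤ N / Real.log N ^ U) ≤
        x / Real.log N ^ U) ∧
    num x (fun m => s m ≠ 0 ∧ ¬ ∀ l, |weighted (lam l) Lam (level K N) (X l) (s m)| ≤ N / Real.log N ^ U) ≤
      x / Real.log N ^ U

open Pool.Agent.V11290.TI (Sq Ex SW Er)

lemma prog_eq (g : ℕ → ℝ) (X q : ℕ) (a : ℤ) : prog g X q a = Sq g X q a := by
  unfold prog Sq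
  rw [sum_filter]
  apply sum_congr rfl
  intro n _
  have h : (n : ℤ) ≡ a [ZMOD q] ↔ (q : ℤ) ∣ (n : ℤ) - a := by
    rw [Int.modEq_comm]
    exact Int.modEq_iff_dvd
  by_cases h1 : (n : ℤ) ≡ a [ZMOD q]
  · rw [if_pos h1, if_pos (h.1 h1)]
  · rw [if_neg h1, if_neg (fun h' => h1 (h.2 h'))]

lemma expected_eq (g : ℕ → ℝ) (X q : ℕ) (a : ℤ) : expected g X q a = Ex (∑ n ∈ Icc 1 X, g n) q a := by
  unfold expected Ex total
  have h : Int.gcd a q = 1 ↔ q.Coprime a.natAbs := by
    unfold Nat.Coprime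
    rw [Nat.gcd_comm]
    rfl
  by_cases h1 : Int.gcd a q = 1
  · rw [if_pos h1, if_pos (h.1 h1)]
  · rw [if_neg h1, if_neg (fun h' => h1 (h.2 h'))]

lemma weighted_eq (lam g : ℕ → ℝ) (D X : ℕ) (a : ℤ) : weighted lam g D X a = Er lam g (∑ n ∈ Icc 1 X, g n) D X a := by
  unfold weighted Er
  apply sum_congr rfl
  intro q _
  rw [prog_eq, expected_eq]

lemma sw_of (g : ℕ → ℝ) (X z' : ℕ) (z δ : ℝ) (hz : (z' : ℝ) ≤ z) (h : SiegelWalfisz g X z δ) : SW g (∑ n ∈ Icc 1 X, g n) X z' δ := by
  intro r hr hrz c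
  have h1 := h r hr ((by exact_mod_cast hrz : (r : ℝ) ≤ z').trans hz) c
  rw [prog_eq, expected_eq] at h1
  exact h1

lemma ceil_pow (L : ℝ) (hL : 2 ≤ L) (E : ℕ) : ((⌈L ^ E⌉₊ : ℕ) : ℝ) ≤ L ^ (E + 1) := by
  have h1 : ((⌈L ^ E⌉₊ : ℕ) : ℝ) < L ^ E + 1 := Nat.ceil_lt_add_one (by positivity)
  have h2 : 1 ≤ L ^ E := one_le_pow₀ (by linarith)
  rw [pow_succ]
  nlinarith

lemma num_le (x : ℕ) (P : ℕ → Prop) (b : ℝ) (h : ∀ 𝒮 : Finset ℕ, 𝒮 ⊆ Icc 1 x → (∀ m ∈ 𝒮, P m) → (𝒮.card : ℝ) ≤ b) :
    num x P ≤ b := by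
  classical
  unfold num
  exact h _ (filter_subset _ _) (fun m hm => (mem_filter.1 hm).2)

lemma has_level (p B C T U : ℕ) (hp : 1 ≤ p) : ∃ K E V N₀ : ℕ, ∀ N : ℕ, N₀ ≤ N → ∀ (x : ℕ) (s : ℕ → ℤ),
    (∀ m ∈ Icc 1 x, |s m| ≤ B * N) → (energy p x s : ℝ) * N ≤ Real.log N ^ C * (x : ℝ) ^ (2 * p) →
    HasLevel K E V B T U N x s := by
  classical
  obtain ⟨K, E, V, n0, h0⟩ := Pool.Agent.V11290.TI.fam_fin p B C (T + 2) U hp
  obtain ⟨n1, h1⟩ := Pool.Agent.V11290.TI.lam_sw B E V
  obtain ⟨n2, h2⟩ := Pool.Agent.TH212.DV.ev_log 2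
  refine ⟨K, E + 1, V, n0 + n1 + n2 + B + 3, fun N hN x s hs hE L hL X hX lam hlam => ?_⟩
  have a2 := h2 N (by omega)
  have hN0 : (0 : ℝ) < N := by exact_mod_cast (by omega : 0 < N)
  have hmono : Real.log (N : ℝ) ^ T ≤ Real.log N ^ (T + 2) := pow_le_pow_right₀ (by linarith) (by omega)
  have key := h0 N (by omega) x s hs hE L (hL.trans hmono) X hX
  constructor
  · intro g hg hsw
    refine num_le _ _ _ fun 𝒮 h𝒮x h𝒮 => ?_
    refine key g lam (fun l n hn => (hg l n hn).trans hmono) (fun l q => (hlam l q).trans hmono) 𝒮 h𝒮x ?_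
    intro m hm
    obtain ⟨h3, h4⟩ := h𝒮 m hm
    push Not at h4
    obtain ⟨l, h4⟩ := h4
    refine ⟨h3, l, sw_of _ _ _ _ _ (ceil_pow _ a2 E) (hsw l), ?_⟩
    rw [weighted_eq] at h4
    exact h4
  · refine num_le _ _ _ fun 𝒮 h𝒮x h𝒮 => ?_
    refine key (fun _ => Lam) lam (fun l n hn => ?_) (fun l q => (hlam l q).trans hmono) 𝒮 h𝒮x ?_
    · have h5 : 0 ≤ Lam n := ArithmeticFunction.vonMangoldt_nonneg
      rw [abs_of_nonneg h5]
      have h6 : (n : ℝ) ≤ N ^ 2 := by
        have h7 : n ≤ B * N := hn.trans (hX l)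
        have h8 : B * N ≤ N * N := Nat.mul_le_mul_right _ (by omega)
        rw [sq]
        exact_mod_cast h7.trans h8
      rcases Nat.eq_zero_or_pos n with h9 | h9
      · rw [h9]
        unfold Lam
        rw [ArithmeticFunction.map_zero]
        positivity
      · calc Lam n ≤ Real.log n := ArithmeticFunction.vonMangoldt_le_log
          _ ≤ Real.log ((N : ℝ) ^ 2) := Real.log_le_log (by exact_mod_cast h9) h6
          _ = 2 * Real.log N := by rw [Real.log_pow]; norm_num
          _ ≤ Real.log N * Real.log N := mul_le_mul_of_nonneg_right a2 (by linarith)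
          _ = Real.log (N : ℝ) ^ 2 := by ring
          _ ≤ _ := pow_le_pow_right₀ (by linarith) (by omega)
    · intro m hm
      obtain ⟨h3, h4⟩ := h𝒮 m hm
      push Not at h4
      obtain ⟨l, h4⟩ := h4
      refine ⟨h3, l, h1 N (by omega) (X l) (hX l), ?_⟩
      rw [weighted_eq] at h4
      exact h4

/-- **Level of distribution `N / log ^ K N` along thin families of residues, for arbitrary sets of primes.**

(1) For all `p ≥ 1`, `B`, `C`, `T`, `U` there are `K`, `E`, `V` such that for every large `N` and every family `s 1, ..., s x`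
of integers in `[-B N, B N]` whose additive energy of order `p` is at most `log ^ C N` times the minimal possible size
`x ^ (2 p) / N`, almost all members of the family have the level of distribution `N / log ^ K N`, for arbitrary functions
`g` which satisfy the Siegel-Walfisz condition and for `Λ`.

(2) This applies to the values of polynomials: `s m = c + f m`, where `f` is a fixed nonconstant polynomial with integer
coefficients, of degree `d`, `N / log ^ C N ≤ x ^ d ≤ B N` and `|c| ≤ B N`. -/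
theorem result (B C T U : ℕ) :
    (∀ p : ℕ, 1 ≤ p → ∃ K E V N₀ : ℕ, ∀ N : ℕ, N₀ ≤ N → ∀ (x : ℕ) (s : ℕ → ℤ), (∀ m ∈ Icc 1 x, |s m| ≤ B * N) →
      (energy p x s : ℝ) * N ≤ Real.log N ^ C * (x : ℝ) ^ (2 * p) → HasLevel K E V B T U N x s) ∧
    (∀ f : Polynomial ℤ, 1 ≤ f.natDegree → ∃ K E V N₀ : ℕ, ∀ N : ℕ, N₀ ≤ N → ∀ x : ℕ,
      x ^ f.natDegree ≤ B * N → (N : ℝ) ≤ Real.log N ^ C * (x : ℝ) ^ f.natDegree → ∀ c : ℤ, |c| ≤ B * N →
      HasLevel K E V B T U N x (fun m => c + f.eval (m : ℤ))) := by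
  classical
  refine ⟨fun p hp => has_level p B C T U hp, fun f hd => ?_⟩
  obtain ⟨p, B', hB', N1, h1⟩ := Pool.Agent.TH823.Fam.poly_family f hd B C
  rcases Nat.eq_zero_or_pos p with hp | hp
  · -- this case is impossible
    obtain ⟨n1, h2⟩ := Pool.Agent.TH212.DV.ev_pow (C + 1) 2 1 one_pos
    refine ⟨0, 0, 0, N1 + n1 + 1, fun N hN x hx1 hx2 c hc => ?_⟩
    exfalso
    obtain ⟨_, h4⟩ := h1 N (by omega) x hx1 hx2 c hc
    have h5 := h2 N (by omega)
    rw [Real.rpow_one] at h5
    have hN0 : (0 : ℝ) < N := by exact_mod_cast (by omega : 0 < N)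
    have h6 : (Pool.Agent.H373R2.T7.energy p x (fun m => c + f.eval (m : ℤ)) : ℝ) = 1 := by
      subst hp
      unfold Pool.Agent.H373R2.T7.energy
      simp
    rw [h6, hp, mul_zero, pow_zero, mul_one, one_mul] at h4
    linarith
  · obtain ⟨K, E, V, N2, h2⟩ := has_level p B' (C + 1) T U hp
    refine ⟨K, E, V, N1 + N2, fun N hN x hx1 hx2 c hc => ?_⟩
    obtain ⟨h3, h4⟩ := h1 N (by omega) x hx1 hx2 c hc
    have h5 := h2 N (by omega) x (fun m => c + f.eval (m : ℤ)) h3 h4
    intro L hL X hX lam hlam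
    exact h5 L hL X (fun l => (hX l).trans (Nat.mul_le_mul_right _ hB')) lam hlam

end Pool.Agent.Results.MP_00e23e_nt.ThinFamiliesSets
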